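import Mathlib

namespace Pool.Agent.Results.MP_9b1654_pr.MLFails

open Finset Filter Topology

/-- Pairs `u < v` of vertices; a graph on `Fin n` is an edge indicator `Pair n → Bool`. -/
abbrev Pair (n : ℕ) : Type := {e : Fin n × Fin n // e.1 < e.2}

/-- Estimators: for every `n`, a labelling computed from the graph. -/
abbrev Est (k : ℕ) : Type := ∀ n : ℕ, (Pair n → Bool) → Fin n → Fin k

section Defs
variable {k n : ℕ}

/-- Edge probability of the pair `e` given the labels `σ`. -/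
noncomputable def q (M : Fin k → Fin k → ℝ) (σ : Fin n → Fin k) (e : Pair n) : ℝ :=
  min 1 (M (σ e.1.1) (σ e.1.2) / n)

/-- The likelihood `P(G | σ)`. -/
noncomputable def lik (M : Fin k → Fin k → ℝ) (σ : Fin n → Fin k) (G : Pair n → Bool) : ℝ :=
  ∏ e, if G e then q M σ e else 1 - q M σ e

open Classical in
/-- Probability of the event `E σ G` in `SBM(n, k, π, M)`. -/
noncomputable def Pr (π : Fin k → ℝ) (M : Fin k → Fin k → ℝ) (n : ℕ)
    (E : (Fin n → Fin k) → (Pair n → Bool) → Prop) : ℝ :=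
  ∑ σ, ∑ G, if E σ G then (∏ v, π (σ v)) * lik M σ G else 0

/-- Overlap of a labelling `s` with the truth `σ`. -/
noncomputable def ov (s σ : Fin n → Fin k) : ℝ :=
  ⨆ τ : Equiv.Perm (Fin k), (#{v | τ (s v) = σ v} : ℝ) / n

/-- Non-trivial correlation. -/
def Corr (π : Fin k → ℝ) (M : Fin k → Fin k → ℝ) (est : Est k) : Prop :=
  ∃ ε > 0, Tendsto (fun n => Pr π M n fun σ G => (⨆ i, π i) + ε ≤ ov (est n G) σ) atTop (𝓝 1)

/-- `est` always outputs a labelling of maximum likelihood. -/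
def IsML (M : Fin k → Fin k → ℝ) (est : Est k) : Prop :=
  ∀ n G s, lik M s G ≤ lik M (est n G) G

end Defs

section Gen
variable {ι α : Type} [Fintype ι] [DecidableEq ι] [Fintype α] (w : ι → α → ℝ)

lemma eprod (hw : ∀ i, ∑ a, w i a = 1) (S : Finset ι) (g : α → ℝ) :
    ∑ x : ι → α, (∏ i, w i (x i)) * ∏ i ∈ S, g (x i) = ∏ i ∈ S, ∑ a, w i a * g a := by
  have := prod_univ_sum (fun _ : ι => (univ : Finset α)) fun i a => w i a * if i ∈ S then g a else 1
  simp only [Fintype.piFinset_univ, prod_mul_distrib, prod_ite_mem, univ_inter] at this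
  rw [← this, ← univ_inter S, ← prod_ite_mem]
  refine prod_congr rfl fun i _ => ?_
  by_cases h : i ∈ S <;> simp [h, hw]

lemma etot (hw : ∀ i, ∑ a, w i a = 1) : ∑ x : ι → α, ∏ i, w i (x i) = 1 := by
  simpa using eprod w hw ∅ fun _ => 1

lemma cheb {V : Type} [Fintype V] (w0 : ∀ i a, 0 ≤ w i a) (hw : ∀ i, ∑ a, w i a = 1)
    (S : V → Finset ι) (hS : ∀ u v, u ≠ v → Disjoint (S u) (S v)) (g : α → ℝ)
    (g0 : ∀ a, 0 ≤ g a) (g1 : ∀ a, g a ≤ 1) (c : V → ℝ) (hc : ∀ v, |c v| ≤ 1) (t : ℝ) (ht : 0 < t) :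
    ∑ x : ι → α, (if ∑ v, c v * (∏ i ∈ S v, g (x i) - ∏ i ∈ S v, ∑ a, w i a * g a) ≤ -t
      then ∏ i, w i (x i) else 0) ≤ Fintype.card V / t ^ 2 := by
  classical
  set m : V → ℝ := fun v => ∏ i ∈ S v, ∑ a, w i a * g a with hm
  have W0 (x : ι → α) : 0 ≤ ∏ i, w i (x i) := prod_nonneg fun i _ => w0 _ _
  have m0 (v) : 0 ≤ m v := prod_nonneg fun i _ => sum_nonneg fun a _ => mul_nonneg (w0 _ _) (g0 _)
  have m1 (v) : m v ≤ 1 := prod_le_one (fun i _ => sum_nonneg fun a _ => mul_nonneg (w0 _ _) (g0 _))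
    fun i _ => (sum_le_sum fun a _ => mul_le_of_le_one_right (w0 _ _) (g1 _)).trans (hw i).le
  rw [le_div_iff₀ (by positivity), sum_mul]
  refine (sum_le_sum (g := fun x => (∏ i, w i (x i)) *
    (∑ v, c v * (∏ i ∈ S v, g (x i) - m v)) ^ 2) fun x _ => ?_).trans ?_
  · split_ifs with h
    · exact mul_le_mul_of_nonneg_left (by nlinarith) (W0 x)
    · simpa using mul_nonneg (W0 x) (sq_nonneg _)
  simp_rw [sq, sum_mul_sum, mul_sum]
  rw [sum_comm, ← card_univ, card_eq_sum_ones, Nat.cast_sum]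
  refine sum_le_sum fun u _ => ?_
  rw [sum_comm, sum_eq_single u (fun v _ h => ?_) (by simp), Nat.cast_one, ← etot w hw]
  · refine sum_le_sum fun x _ => mul_le_of_le_one_right (W0 x) ?_
    have a : 0 ≤ ∏ i ∈ S u, g (x i) := prod_nonneg fun i _ => g0 _
    have b : ∏ i ∈ S u, g (x i) ≤ 1 := prod_le_one (fun i _ => g0 _) fun i _ => g1 _
    have : |c u * (∏ i ∈ S u, g (x i) - m u)| ≤ 1 := by
      rw [abs_mul]
      exact mul_le_one₀ (hc u) (abs_nonneg _) (abs_le.2 ⟨by linarith [m1 u], by linarith [m0 u]⟩)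
    nlinarith [abs_le.1 this]
  · have e (x : ι → α) : (∏ i, w i (x i)) * (c u * (∏ i ∈ S u, g (x i) - m u) *
        (c v * (∏ i ∈ S v, g (x i) - m v))) = c u * c v * ((∏ i, w i (x i)) * ∏ i ∈ S u ∪ S v, g (x i)
        - m v * ((∏ i, w i (x i)) * ∏ i ∈ S u, g (x i)) - m u * ((∏ i, w i (x i)) * ∏ i ∈ S v, g (x i))
        + m u * m v * ∏ i, w i (x i)) := by rw [prod_union (hS u v h.symm)]; ring
    simp only [e, ← mul_sum, sum_add_distrib, sum_sub_distrib, eprod w hw, etot w hw]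
    simp only [hm, prod_union (hS u v h.symm)]; ring

end Gen

lemma weier {ι : Type} (S : Finset ι) (x : ι → ℝ) (h0 : ∀ i, 0 ≤ x i) (h1 : ∀ i, x i ≤ 1) :
    1 - ∑ i ∈ S, x i ≤ ∏ i ∈ S, (1 - x i) ∧ (∏ i ∈ S, (1 - x i)) * (1 + ∑ i ∈ S, x i) ≤ 1 := by
  classical
  induction S using Finset.induction with
  | empty => simp
  | insert a S ha ih =>
    rw [sum_insert ha, prod_insert ha]
    have s : 0 ≤ ∑ i ∈ S, x i := sum_nonneg fun i _ => h0 i
    have p : 0 ≤ ∏ i ∈ S, (1 - x i) := prod_nonneg fun i _ => sub_nonneg.2 (h1 i)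
    have := h0 a; have := h1 a
    exact ⟨by nlinarith [ih.1], by nlinarith [ih.2, mul_nonneg p (mul_nonneg (h0 a) (add_nonneg s (h0 a)))]⟩

noncomputable def p0 : Fin 3 → ℝ := ![8 / 10, 1 / 10, 1 / 10]

noncomputable def d0 : Fin 3 → ℝ := ![1 / 10 ^ 6, 1 / 10 ^ 6, 1 / 40]

noncomputable def M0 (i j : Fin 3) : ℝ := if i = j then d0 i else 0

lemma d1 (i) : 0 < d0 i ∧ d0 i ≤ 1 / 40 := by fin_cases i <;> simp [d0] <;> norm_num

lemma p1 (i) : 0 < p0 i := by fin_cases i <;> simp [p0]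

lemma p2 : ∑ i, p0 i = 1 := by simp [p0, Fin.sum_univ_succ]; norm_num

lemma p3 : ⨆ i, p0 i = 8 / 10 := le_antisymm
  (ciSup_le fun i => by fin_cases i <;> simp [p0] <;> norm_num)
  (le_ciSup_of_le (Set.finite_range _).bddAbove 0 (by simp [p0]))

variable {n : ℕ}

lemma qe (σ : Fin n → Fin 3) (e : Pair n) :
    q M0 σ e = if σ e.1.1 = σ e.1.2 then d0 (σ e.1.1) / n else 0 := by
  have : (1 : ℝ) ≤ n := by exact_mod_cast e.1.1.pos
  unfold q M0
  split_ifs
  · exact min_eq_right ((div_le_one (by linarith)).2 (by linarith [d1 (σ e.1.1)]))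
  · simp

lemma q1 (σ : Fin n → Fin 3) (e : Pair n) : 0 ≤ q M0 σ e ∧ q M0 σ e ≤ d0 (σ e.1.1) / n ∧
    q M0 σ e ≤ 1 := by
  have := (d1 (σ e.1.1)).1
  refine ⟨?_, ?_, min_le_left _ _⟩ <;> rw [qe] <;> split_ifs <;> first | positivity | rfl

noncomputable def we (σ : Fin n → Fin 3) (e : Pair n) (b : Bool) : ℝ :=
  if b then q M0 σ e else 1 - q M0 σ e

lemma we0 (σ : Fin n → Fin 3) (e b) : 0 ≤ we σ e b := by
  unfold we; split_ifs <;> linarith [q1 σ e]

lemma we1 (σ : Fin n → Fin 3) (e) : ∑ b, we σ e b = 1 := by simp [we]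

lemma l0 (σ : Fin n → Fin 3) (G) : 0 ≤ lik M0 σ G := prod_nonneg fun e _ => we0 σ e _

lemma l1 (σ : Fin n → Fin 3) : ∑ G, lik M0 σ G = 1 := etot _ (we1 σ)

lemma W0 (σ : Fin n → Fin 3) : 0 ≤ ∏ v, p0 (σ v) := prod_nonneg fun _ _ => (p1 _).le

lemma W1 : ∑ σ : Fin n → Fin 3, ∏ v, p0 (σ v) = 1 := etot (fun _ => p0) fun _ => p2

/-- pairs whose smaller end is `v` -/
def up (v : Fin n) : Finset (Pair n) := {e | e.1.1 = v}

lemma mu {v : Fin n} {e} (h : e ∈ up v) : e.1.1 = v := (mem_filter.1 h).2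

lemma upc (v : Fin n) : #(up v) ≤ n := by
  refine (card_le_card_of_injOn (t := univ) (fun e => e.1.2) (by simp) fun a ha b hb h => ?_).trans
    (by simp)
  simp only [up, coe_filter, mem_univ, true_and, Set.mem_setOf_eq] at ha hb
  exact Subtype.ext (Prod.ext (ha.trans hb.symm) h)

lemma upq (σ : Fin n → Fin 3) (v : Fin n) : ∑ e ∈ up v, q M0 σ e ≤ d0 (σ v) := by
  have : (0 : ℝ) < n := by exact_mod_cast v.pos
  refine (sum_le_card_nsmul _ _ (d0 (σ v) / n) fun e he => ?_).trans ?_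
  · have := (q1 σ e).2.1
    rwa [mu he] at this
  · rw [nsmul_eq_mul, mul_div_assoc', div_le_iff₀ this, mul_comm]
    exact mul_le_mul_of_nonneg_left (by exact_mod_cast upc v) (d1 _).1.le

def est0 : Est 3 := fun _ G v => if ∃ e ∈ up v, G e then 2 else 0

def gg (b : Bool) : ℝ := if b then 0 else 1

def cc (i : Fin 3) : ℝ := if i = 0 then 1 else if i = 2 then -1 else 0

lemma good (σ : Fin n → Fin 3) (G : Pair n → Bool) (hn : 1000 ≤ n)
    (h0 : -(n / 10 ^ 6 : ℝ) < ∑ v, 1 * (∏ u ∈ {v}, (if σ u = 0 then 1 else 0 : ℝ) -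
      ∏ _u ∈ {v}, ∑ a, p0 a * if a = 0 then 1 else 0))
    (h2 : -(n / 10 ^ 6 : ℝ) < ∑ v, 1 * (∏ u ∈ {v}, (if σ u = 2 then 1 else 0 : ℝ) -
      ∏ _u ∈ {v}, ∑ a, p0 a * if a = 2 then 1 else 0))
    (h3 : -(n / 10 ^ 6 : ℝ) < ∑ v, cc (σ v) * (∏ e ∈ up v, gg (G e) -
      ∏ e ∈ up v, ∑ b, we σ e b * gg b)) :
    8 / 10 + 1 / 10 ^ 5 ≤ ov (est0 n G) σ := by
  have n0 : (1000 : ℝ) ≤ n := by exact_mod_cast hn
  refine le_ciSup_of_le (Set.finite_range _).bddAbove 1 ?_
  simp [p0] at h0 h2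
  have e1 : (#{v | (1 : Equiv.Perm (Fin 3)) (est0 n G v) = σ v} : ℝ) =
      ∑ v, (cc (σ v) * ∏ e ∈ up v, gg (G e) + if σ v = 2 then 1 else 0) := by
    rw [card_filter]; push_cast
    refine sum_congr rfl fun v _ => ?_
    by_cases h : ∃ e ∈ up v, G e
    · obtain ⟨e, he, hg⟩ := id h
      rw [prod_eq_zero he (by simp [gg, hg])]
      simp only [est0, if_pos h]
      generalize σ v = i
      fin_cases i <;> simp
    · rw [prod_eq_one fun e he => by simp [gg, show G e = false by simpa using fun q => h ⟨e, he, q⟩]]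
      simp only [est0, if_neg h, cc]
      generalize σ v = i
      fin_cases i <;> simp
  have e2 (v) : (if σ v = 0 then 1 - 1 / 10 ^ 6 else 0) + ∑ e ∈ up v, (if σ e.1.1 = 2 ∧ σ e.1.2 = 2
      then 1 / 80 / n else 0 : ℝ) ≤
      cc (σ v) * (∏ e ∈ up v, ∑ b, we σ e b * gg b) + if σ v = 2 then 1 else 0 := by
    obtain ⟨a, b⟩ := weier (up v) (q M0 σ) (fun e => (q1 σ e).1) fun e => (q1 σ e).2.2
    have c := upq σ v
    simp only [Fintype.sum_bool, we, gg]
    by_cases h : σ v = 2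
    · have : ∑ e ∈ up v, (if σ e.1.1 = 2 ∧ σ e.1.2 = 2 then 1 / 80 / n else 0 : ℝ) =
          (∑ e ∈ up v, q M0 σ e) / 2 := by
        rw [sum_div]
        refine sum_congr rfl fun e he => ?_
        rw [qe, mu he, h]
        by_cases g : σ e.1.2 = 2 <;> simp [g, d0, eq_comm]; ring
      have s : 0 ≤ ∑ e ∈ up v, q M0 σ e := sum_nonneg fun e _ => (q1 σ e).1
      have := (d1 (σ v)).2
      simp [h, cc] at *
      nlinarith
    · rw [sum_eq_zero fun e he => if_neg fun g => h (by rw [← mu he]; exact g.1)]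
      by_cases g : σ v = 0 <;> simp [g, h, cc, d0] at *
      linarith
  have e3 := sum_le_sum fun v (_ : v ∈ univ) => e2 v
  have e4 : ∑ v, ∑ e ∈ up v, (if σ e.1.1 = 2 ∧ σ e.1.2 = 2 then 1 / 80 / n else 0 : ℝ) =
      (#{v | σ v = 2}).choose 2 * (1 / 80 / n) := by
    rw [show (∑ v, ∑ e ∈ up v, (if σ e.1.1 = 2 ∧ σ e.1.2 = 2 then 1 / 80 / n else 0 : ℝ)) = _ from
      sum_fiberwise univ (fun e : Pair n => e.1.1) _, ← sum_filter, sum_const, nsmul_eq_mul,
      ← card_product_filter_lt]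
    congr 2
    exact card_bij (fun e _ => e.1) (fun e he => by simpa [e.2] using he)
      (fun _ _ _ _ h => Subtype.ext h) fun b hb => ⟨⟨b, (mem_filter.1 hb).2⟩, by simp at hb; simp [hb], rfl⟩
  rw [sum_add_distrib, e4, ← sum_filter, sum_const, nsmul_eq_mul, Nat.cast_choose_two] at e3
  simp only [mul_sub, sum_sub_distrib] at h3
  rw [e1, le_div_iff₀ (by linarith)]
  rw [sum_add_distrib] at e3 ⊢
  generalize (#{x | σ x = 2} : ℝ) = B at *
  have : 6 / 10 ^ 5 * n ≤ B * (B - 1) / 2 * (1 / 80 / n) := by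
    rw [show B * (B - 1) / 2 * (1 / 80 / n) = B * (B - 1) / 160 / n by ring, le_div_iff₀ (by linarith)]
    have := mul_le_mul (show 99 / 1000 * (n : ℝ) ≤ B by linarith)
      (show 98 / 1000 * (n : ℝ) ≤ B - 1 by linarith) (by linarith) (by linarith)
    nlinarith
  linarith

lemma flip (s : Fin n → Fin 3) (G : Pair n → Bool) (v : Fin n)
    (hv : ∀ e, G e → ¬ (e.1.1 = v ∨ e.1.2 = v)) (j : Fin 3) :
    lik M0 (Function.update s v j) G = (1 - d0 j / n) ^ #{w ∈ univ.erase v | s w = j} *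
      ∏ e : Pair n with ¬ (e.1.1 = v ∨ e.1.2 = v), we s e (G e) := by
  rw [lik, ← prod_filter_mul_prod_filter_not univ fun e : Pair n => e.1.1 = v ∨ e.1.2 = v]
  congr 1
  · rw [← prod_const, prod_filter (s := univ.erase v)]
    refine prod_bij (fun e _ => if e.1.1 = v then e.1.2 else e.1.1) (fun e he => ?_)
      (fun a ha b hb h => ?_) (fun w hw => ?_) fun e he => ?_
    · have := e.2; grind
    · have := a.2; have := b.2
      refine Subtype.ext (Prod.ext ?_ ?_) <;> grind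
    · rcases lt_or_gt_of_ne (mem_erase.1 hw).1 with h | h
      · exact ⟨⟨(w, v), h⟩, by simp, by simp [h.ne]⟩
      · exact ⟨⟨(v, w), h⟩, by simp, by simp⟩
    · have := e.2
      have h := (mem_filter.1 he).2
      rw [if_neg fun g => hv e g h, qe]
      grind
  · refine prod_congr rfl fun e he => ?_
    have h := not_or.1 (mem_filter.1 he).2
    simp only [we, q, Function.update_of_ne h.1, Function.update_of_ne h.2]

lemma size (s : Fin n → Fin 3) (G : Pair n → Bool) (hs : ∀ s', lik M0 s' G ≤ lik M0 s G)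
    (pos : 0 < lik M0 s G) (i : Fin 3) :
    (#{v | s v = i} : ℝ) ≤ (n + 1) / 2 + 2 * ∑ e, (1 - gg (G e)) := by
  have e0 : ∑ e, (1 - gg (G e)) = (#{e | G e} : ℝ) := by
    rw [card_filter]; push_cast
    exact sum_congr rfl fun e _ => by cases G e <;> simp [gg]
  rw [e0]
  by_cases h : ∃ v, s v = i ∧ ∀ e, G e → ¬ (e.1.1 = v ∨ e.1.2 = v)
  · obtain ⟨v, rfl, hv⟩ := h
    obtain ⟨j, hj, dj⟩ : ∃ j, j ≠ s v ∧ d0 j ≤ d0 (s v) := by
      generalize s v = i
      fin_cases i
      exacts [⟨1, by simp, by simp [d0]⟩, ⟨0, by simp, by simp [d0]⟩, ⟨0, by simp, by simp [d0]; norm_num⟩]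
    have n1 : (1 : ℝ) ≤ n := by exact_mod_cast v.pos
    have a := flip s G v hv (s v)
    have b := hs (Function.update s v j)
    rw [Function.update_eq_self] at a
    have u (i) : 0 < 1 - d0 i / n := sub_pos.2 ((div_lt_one (by linarith)).2 (by linarith [d1 i]))
    rw [a] at pos b
    rw [flip s G v hv, mul_le_mul_iff_left₀ ((mul_pos_iff_of_pos_left (pow_pos (u _) _)).1 pos)] at b
    have c := (pow_le_pow_iff_right_of_lt_one₀ (u j) (by have := (d1 j).1; simp; positivity)).1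
      (b.trans (pow_le_pow_left₀ (u _).le (by gcongr) _))
    have d : #{w ∈ univ.erase v | s w = s v} + #{w ∈ univ.erase v | s w = j} ≤ n - 1 := by
      rw [← card_union_of_disjoint (disjoint_filter.2 fun x _ p q => hj (q.symm.trans p))]
      exact (card_le_card (union_subset (filter_subset _ _) (filter_subset _ _))).trans (by simp)
    have e : #{w | s w = s v} ≤ #{w ∈ univ.erase v | s w = s v} + 1 :=
      (card_le_card fun w hw => by grind).trans (card_insert_le v _)
    have : 2 * #{w | s w = s v} ≤ n + 1 := by have := v.pos; omega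
    have : (2 * #{w | s w = s v} : ℝ) ≤ n + 1 := by exact_mod_cast this
    have : (0 : ℝ) ≤ #{e | G e} := by positivity
    linarith
  · have : #{v | s v = i} ≤ #{e | G e} + #{e | G e} :=
      (card_le_card (t := image (fun e : Pair n => e.1.1) {e | G e} ∪ image (fun e => e.1.2) {e | G e})
        fun v hv => by
          by_contra c
          refine h ⟨v, (mem_filter.1 hv).2, fun e he g => c ?_⟩
          simp only [mem_union, mem_image, mem_filter, mem_univ, true_and]
          exact g.imp (fun g => ⟨e, he, g⟩) fun g => ⟨e, he, g⟩).trans ((card_union_le _ _).trans (add_le_add card_image_le card_image_le))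
    have : (#{v | s v = i} : ℝ) ≤ #{e | G e} + #{e | G e} := by exact_mod_cast this
    have : (0 : ℝ) ≤ n := by positivity
    linarith

theorem result : ∃ (k : ℕ) (π : Fin k → ℝ) (M : Fin k → Fin k → ℝ), 2 ≤ k ∧ (∀ i, 0 < π i) ∧
    ∑ i, π i = 1 ∧ (∀ i j, 0 ≤ M i j) ∧ (∀ i j, M i j = M j i) ∧
    (∃ est : Est k, Corr π M est) ∧ ∀ est : Est k, IsML M est → ¬ Corr π M est := by
  classical
  refine ⟨3, p0, M0, by norm_num, p1, p2, fun i j => ?_, fun i j => by unfold M0; grind,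
    ⟨est0, 1 / 10 ^ 5, by norm_num, ?_⟩, fun est hM ⟨ε, e0, h⟩ => ?_⟩
  · unfold M0; split_ifs; exacts [(d1 i).1.le, le_rfl]
  · refine tendsto_of_tendsto_of_tendsto_of_le_of_le' (g := fun n : ℕ => 1 - 3 * 10 ^ 12 / (n : ℝ))
      (by simpa using (tendsto_const_div_atTop_nhds_zero_nat (3 * 10 ^ 12 : ℝ)).const_sub 1)
      tendsto_const_nhds ?_ (.of_forall fun n => ?_)
    · filter_upwards [eventually_ge_atTop 1000] with n hn
      have n0 : (1000 : ℝ) ≤ n := by exact_mod_cast hn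
      have A (i : Fin 3) := cheb (fun _ : Fin n => p0) (fun _ a => (p1 a).le) (fun _ => p2)
        (fun v => {v}) (by simp) (fun a => if a = i then 1 else 0) (fun a => by positivity)
        (fun a => by split_ifs <;> norm_num) (fun _ => 1) (by simp) (n / 10 ^ 6) (by positivity)
      have B (σ : Fin n → Fin 3) := cheb (we σ) (we0 σ) (we1 σ) up
        (fun u v h => disjoint_left.2 fun e a b => h ((mu a).symm.trans (mu b))) gg
        (fun b => by cases b <;> simp [gg]) (fun b => by cases b <;> simp [gg]) (fun v => cc (σ v))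
        (fun v => by unfold cc; split_ifs <;> simp) (n / 10 ^ 6) (by positivity)
      have C := sum_le_sum fun σ (_ : σ ∈ univ) => mul_le_mul_of_nonneg_left (B σ) (W0 σ)
      rw [← sum_mul, W1, one_mul] at C
      have D := add_le_add (add_le_add (A 0) (A 2)) C
      rw [show ∀ x : ℝ, x + x + x = 3 * x from fun x => by ring, Fintype.card_fin,
        show 3 * (n / (n / 10 ^ 6) ^ 2 : ℝ) = 3 * 10 ^ 12 / n by field_simp] at D
      refine sub_le_iff_le_add.2 (le_trans ?_ (add_le_add_right D _))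
      rw [Pr, ← sum_add_distrib, ← sum_add_distrib, ← sum_add_distrib, p3]
      refine (W1 (n := n)).ge.trans (sum_le_sum fun σ _ => ?_)
      have z1 : 0 ≤ ∑ G, if 8 / 10 + 1 / 10 ^ 5 ≤ ov (est0 n G) σ then
        (∏ v, p0 (σ v)) * lik M0 σ G else 0 := sum_nonneg fun G _ => by
          have := mul_nonneg (W0 σ) (l0 σ G); positivity
      have z2 := mul_nonneg (W0 σ) (sum_nonneg fun (G : Pair n → Bool) (_ : G ∈ univ) => (show (0 : ℝ) ≤ if ∑ v, cc (σ v) *
        (∏ e ∈ up v, gg (G e) - ∏ e ∈ up v, ∑ b, we σ e b * gg b) ≤ -(n / 10 ^ 6) then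
        ∏ e, we σ e (G e) else 0 by have : 0 ≤ ∏ e, we σ e (G e) := l0 σ G; positivity))
      have := W0 σ
      split_ifs with a b b
      any_goals linarith
      rw [add_zero, zero_add, mul_sum, ← sum_add_distrib]
      refine le_trans (b := ∑ G, (∏ v, p0 (σ v)) * lik M0 σ G) (by rw [← mul_sum, l1 σ, mul_one])
        (sum_le_sum fun G _ => ?_)
      have := mul_nonneg (W0 σ) (l0 σ G)
      split_ifs with c d d
      · exact le_add_of_nonneg_right this
      · simp
      · exact (zero_add _).ge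
      · exact absurd (good σ G hn (not_le.1 a) (not_le.1 b) (not_le.1 d)) c
    · refine le_of_le_of_eq (sum_le_sum fun σ _ => le_of_le_of_eq (sum_le_sum (g := fun G =>
        (∏ v, p0 (σ v)) * lik M0 σ G) fun G _ => ?_) (by rw [← mul_sum, l1 σ, mul_one])) (W1 (n := n))
      have := mul_nonneg (W0 σ) (l0 σ G)
      split_ifs <;> simp [this]
  · obtain ⟨n, h1, hn⟩ := ((h.eventually (lt_mem_nhds (by norm_num : (0.95 : ℝ) < 1))).and
      (eventually_ge_atTop 50)).exists
    have n0 : (50 : ℝ) ≤ n := by exact_mod_cast hn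
    have A : Pr p0 M0 n (fun σ G => (⨆ i, p0 i) + ε ≤ ov (est n G) σ) ≤ ∑ σ : Fin n → Fin 3, ∑ G,
        (∏ v, p0 (σ v)) * lik M0 σ G * ((∑ v, (if σ v = 0 then 0 else 1) + ((n + 1) / 2 +
          2 * ∑ e, (1 - gg (G e)))) / (8 / 10 * n)) := by
      refine sum_le_sum fun σ _ => sum_le_sum fun G _ => ?_
      have z := mul_nonneg (W0 σ) (l0 σ G)
      have z1 : (0 : ℝ) ≤ ∑ v, if σ v = 0 then 0 else 1 := sum_nonneg fun _ _ => by positivity
      have z2 : 0 ≤ ∑ e, (1 - gg (G e)) := sum_nonneg fun e _ => by cases G e <;> simp [gg]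
      split_ifs with c
      swap
      · positivity
      rcases (l0 σ G).eq_or_lt with p | p
      · simp [← p]
      refine le_mul_of_one_le_right z ((one_le_div (by positivity)).2 ?_)
      rw [p3] at c
      refine (le_div_iff₀ (by positivity)).1 ((by linarith : _ ≤ ov (est n G) σ).trans
        (ciSup_le fun τ => div_le_div_of_nonneg_right ?_ (by positivity)))
      refine le_trans ?_ (add_le_add_right (size _ G (hM n G) (p.trans_le (hM n G σ)) (τ.symm 0)) _)
      simp only [card_filter]; push_cast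
      rw [← sum_add_distrib]
      refine sum_le_sum fun v _ => ?_
      simp only [Equiv.eq_symm_apply]
      split_ifs <;> simp_all
    have B (σ : Fin n → Fin 3) : ∑ G, lik M0 σ G * ∑ e, (1 - gg (G e)) ≤ n / 40 := by
      simp only [mul_sum]
      rw [sum_comm]
      refine (sum_le_card_nsmul _ _ (1 / 40 / n : ℝ) fun e _ => ?_).trans ?_
      · have := eprod _ (we1 σ) {e} fun b => 1 - gg b
        simp only [prod_singleton] at this
        refine (le_of_eq this).trans ?_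
        have := (q1 σ e).2.1.trans (div_le_div_of_nonneg_right (d1 _).2 (by positivity))
        simpa [we, gg] using this
      · have : (Fintype.card (Pair n) : ℝ) ≤ n * n := by
          exact_mod_cast (Fintype.card_subtype_le _).trans (by simp)
        rw [nsmul_eq_mul, card_univ, mul_div_assoc', div_le_iff₀ (by positivity)]
        linarith
    have C : ∑ σ : Fin n → Fin 3, (∏ v, p0 (σ v)) * ∑ v, (if σ v = 0 then 0 else 1) = n / 5 := by
      simp only [mul_sum]
      rw [sum_comm, sum_congr rfl fun v _ => (by simpa only [prod_singleton] using (eprod (fun _ => p0)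
        (fun _ => p2) {v} fun a => if a = 0 then 0 else 1))]
      simp [Fin.sum_univ_succ, p0]; ring
    have D := sum_le_sum fun σ (_ : σ ∈ univ) => mul_le_mul_of_nonneg_left (B σ) (W0 σ)
    rw [← sum_mul, W1] at D
    have E (σ : Fin n → Fin 3) (X : ℝ) : ∑ G, (∏ v, p0 (σ v)) * lik M0 σ G * ((X + ((n + 1) / 2 +
        2 * ∑ e, (1 - gg (G e)))) / (8 / 10 * n)) = ((∏ v, p0 (σ v)) * X + ((∏ v, p0 (σ v)) * ((n + 1) / 2)
        + 2 * ((∏ v, p0 (σ v)) * ∑ G, lik M0 σ G * ∑ e, (1 - gg (G e))))) / (8 / 10 * n) := by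
      rw [sum_congr rfl (g := fun G => ((∏ v, p0 (σ v)) * X + (∏ v, p0 (σ v)) * ((n + 1) / 2)) /
        (8 / 10 * n) * lik M0 σ G + 2 * (∏ v, p0 (σ v)) / (8 / 10 * n) *
        (lik M0 σ G * ∑ e, (1 - gg (G e)))) fun G _ => by ring, sum_add_distrib, ← mul_sum, ← mul_sum, l1]
      ring
    simp only [E] at A
    rw [← sum_div, sum_add_distrib, sum_add_distrib, C, ← sum_mul, W1, ← mul_sum] at A
    have := (lt_div_iff₀ (by positivity)).1 (h1.trans_le A)
    linarith

end Pool.Agent.Results.MP_9b1654_pr.MLFails
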